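import Pool.Agent.H510.K2S.Orders
import Pool.Graph.R_pool_sql_team_seeded_1acbe0a2.Y94.R.Core2
set_option autoImplicit false

/-!
The dimension of a space of locally constant combinations of the regulator integrals is at most the
number of the critical points with critical values outside of `[-1, 1]` of a real rooted polynomial
`G` with `P = G(w)`.
-/

namespace Pool.Agent.H510.K2S

open Polynomial Set Filter Module

open Pool.Agent.Y94.R

open scoped Topology

/-- All complex solutions of `G(v) = t` are real for all `t` in a nonempty open interval contained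
in `(-1, 1)`. -/
def RealRooted (G : ℂ[X]) : Prop :=
  ∃ a b : ℝ, -1 ≤ a ∧ a < b ∧ b ≤ 1 ∧ ∀ t : ℝ, a < t → t < b → ∀ v : ℂ, G.eval v = t → v.im = 0

/-- the critical points of `G` with critical values `G(v)` such that `|Re G(v)| > 1` -/
def OutCrit (G : ℂ[X]) : Set ℂ := {v | (derivative G).eval v = 0 ∧ 1 < |(G.eval v).re|}

variable {D P Q r : ℂ[X]} {m : ℕ} (γ : Fin m → Lp D)

/-- the vectors `c` in `𝒜` such that `R / r` has no poles at the points `β` with `w(β) ∈ Z` -/
noncomputable def NZ (r w : ℂ[X]) (𝒜 : Submodule ℝ (Fin m → ℝ)) (Z : Set ℂ) :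
    Submodule ℝ (Fin m → ℝ) where
  carrier := {c | c ∈ 𝒜 ∧ ∀ β : ℂ, w.eval β ∈ Z → NP r (Rc γ r c) β}
  zero_mem' := by
    refine ⟨Submodule.zero_mem _, fun β _ => ?_⟩
    have h := Rc_smul (r := r) γ 0 0
    rw [zero_smul, Complex.ofReal_zero, C_0, zero_mul] at h
    rw [h]
    exact dvd_zero _
  add_mem' := by
    rintro c c' ⟨h1, h2⟩ ⟨h3, h4⟩
    refine ⟨Submodule.add_mem _ h1 h3, fun β hβ => ?_⟩
    rw [Rc_add]
    exact dvd_add (h2 β hβ) (h4 β hβ)
  smul_mem' := by
    rintro a c ⟨h1, h2⟩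
    refine ⟨Submodule.smul_mem _ a h1, fun β hβ => ?_⟩
    rw [Rc_smul]
    exact (h2 β hβ).mul_left _

theorem mem_NZ {w : ℂ[X]} {𝒜 : Submodule ℝ (Fin m → ℝ)} {Z : Set ℂ} {c : Fin m → ℝ} :
    c ∈ NZ γ r w 𝒜 Z ↔ c ∈ 𝒜 ∧ ∀ β : ℂ, w.eval β ∈ Z → NP r (Rc γ r c) β := Iff.rfl

theorem NZ_insert {w : ℂ[X]} {𝒜 : Submodule ℝ (Fin m → ℝ)} {Z : Set ℂ} {v : ℂ} {c : Fin m → ℝ}
    (h1 : c ∈ NZ γ r w 𝒜 Z) (h2 : ∀ β : ℂ, w.eval β = v → NP r (Rc γ r c) β) :
    c ∈ NZ γ r w 𝒜 (insert v Z) := by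
  refine ⟨h1.1, fun β hβ => ?_⟩
  rcases hβ with hβ | hβ
  · exact h2 β hβ
  · exact h1.2 β hβ

/-- One critical point of `G` costs at most one dimension. -/
theorem NZ_step (h : Pell D P Q r) {𝒜 : Submodule ℝ (Fin m → ℝ)} (hA : C2.LC γ P Q r 𝒜)
    {w G : ℂ[X]} (hw : 0 < w.natDegree) (hPG : P = G.comp w)
    (hΘ : ∀ A B : ℂ[X], B ≠ 0 → RealOn P (TT γ P) A B →
      ι A / ι B ∈ IntermediateField.adjoin ℂ {ι w})
    (hw1 : ∀ A B : ℂ[X], IsCoprime A B → B ≠ 0 → RealOn P (TT γ P) A B → ∀ β : ℂ,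
      (w.eval β).im ≠ 0 → rootMultiplicity β (P - C (P.eval β)) ∣ rootMultiplicity β B)
    (hw2 : ∀ A B : ℂ[X], IsCoprime A B → B ≠ 0 → RealOn P (TT γ P) A B → ∀ β : ℂ,
      (w.eval β).im = 0 → B.eval β ≠ 0 → ∃ ρ : ℝ, A.eval β = ρ * B.eval β)
    {v : ℂ} (hv : G.eval v ^ 2 ≠ 1) (hG : rootMultiplicity v (derivative G) = 1) (Z : Set ℂ) :
    finrank ℝ (NZ γ r w 𝒜 Z) ≤ finrank ℝ (NZ γ r w 𝒜 (insert v Z)) + 1 := by
  by_cases hle : NZ γ r w 𝒜 Z ≤ NZ γ r w 𝒜 (insert v Z)
  · exact (Submodule.finrank_mono hle).trans (Nat.le_succ _)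
  obtain ⟨c₀, hc₀, hc₀'⟩ := SetLike.not_le_iff_exists.1 hle
  obtain ⟨β, hβv, hβ⟩ : ∃ β : ℂ, w.eval β = v ∧ ¬ NP r (Rc γ r c₀) β := by
    by_contra hcon
    push Not at hcon
    exact hc₀' (NZ_insert γ hc₀ hcon)
  have hPβ : P.eval β ^ 2 ≠ 1 := by
    rw [hPG, eval_comp, hβv]
    exact hv
  have hGβ : rootMultiplicity (w.eval β) (derivative G) = 1 := by rw [hβv]; exact hG
  have hθ0 := C2.realTheta γ h hA hc₀.1
  have hle2 : NZ γ r w 𝒜 Z ≤ NZ γ r w 𝒜 (insert v Z) ⊔ Submodule.span ℝ {c₀} := by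
    intro c hc
    have hθ := C2.realTheta γ h hA hc.1
    obtain ⟨lam, hlam⟩ := exists_reduction h hw hPG hΘ hw1 hw2 hθ0 hθ hPβ hGβ hβ
    have hmem : c - lam • c₀ ∈ 𝒜 := Submodule.sub_mem _ hc.1 (Submodule.smul_mem _ lam hc₀.1)
    have hR : Rc γ r (c - lam • c₀) = Rc γ r c - C (lam : ℂ) * Rc γ r c₀ := by
      have h2 : c - lam • c₀ = c + (-lam) • c₀ := by rw [neg_smul, sub_eq_add_neg]
      rw [h2, Rc_add, Rc_smul]
      push_cast
      rw [C_neg]
      ring
    have hθ' := C2.realTheta γ h hA hmem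
    rw [hR] at hθ'
    have hnp := hlam _ hθ'
    have h1 : c - lam • c₀ ∈ NZ γ r w 𝒜 (insert v Z) := by
      refine NZ_insert γ (Submodule.sub_mem _ hc (Submodule.smul_mem _ lam hc₀)) ?_
      intro β' hβ'
      rw [hR]
      exact pole_all h hw hPG hΘ hθ' hPβ hGβ (by rw [hβ', hβv]) hnp
    have h2 : c = (c - lam • c₀) + lam • c₀ := by rw [sub_add_cancel]
    rw [h2]
    exact Submodule.add_mem_sup h1 (Submodule.smul_mem _ lam (Submodule.mem_span_singleton_self _))
  refine (Submodule.finrank_mono hle2).trans ?_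
  refine (Submodule.finrank_add_le_finrank_add_finrank _ _).trans ?_
  have hc₀ne : c₀ ≠ 0 := by
    rintro rfl
    exact hc₀' (Submodule.zero_mem _)
  rw [finrank_span_singleton hc₀ne]

theorem finrank_NZ_le (h : Pell D P Q r) {𝒜 : Submodule ℝ (Fin m → ℝ)} (hA : C2.LC γ P Q r 𝒜)
    {w G : ℂ[X]} (hw : 0 < w.natDegree) (hPG : P = G.comp w)
    (hΘ : ∀ A B : ℂ[X], B ≠ 0 → RealOn P (TT γ P) A B →
      ι A / ι B ∈ IntermediateField.adjoin ℂ {ι w})
    (hw1 : ∀ A B : ℂ[X], IsCoprime A B → B ≠ 0 → RealOn P (TT γ P) A B → ∀ β : ℂ,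
      (w.eval β).im ≠ 0 → rootMultiplicity β (P - C (P.eval β)) ∣ rootMultiplicity β B)
    (hw2 : ∀ A B : ℂ[X], IsCoprime A B → B ≠ 0 → RealOn P (TT γ P) A B → ∀ β : ℂ,
      (w.eval β).im = 0 → B.eval β ≠ 0 → ∃ ρ : ℝ, A.eval β = ρ * B.eval β)
    (F : Finset ℂ) (hF : ∀ v ∈ F, G.eval v ^ 2 ≠ 1 ∧ rootMultiplicity v (derivative G) = 1) :
    finrank ℝ 𝒜 ≤ finrank ℝ (NZ γ r w 𝒜 F) + F.card := by
  classical
  induction F using Finset.induction_on with
  | empty =>
    rw [Finset.card_empty, add_zero]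
    refine Submodule.finrank_mono fun c hc => ⟨hc, fun β hβ => ?_⟩
    simp at hβ
  | insert v F hv ih =>
    have h1 := ih fun u hu => hF u (Finset.mem_insert_of_mem hu)
    obtain ⟨h2, h3⟩ := hF v (Finset.mem_insert_self v F)
    have h4 := NZ_step γ h hA hw hPG hΘ hw1 hw2 h2 h3 (F : Set ℂ)
    rw [Finset.card_insert_of_notMem hv, Finset.coe_insert]
    omega

/-- Poles at critical values in `[-1, 1]` do not occur. -/
theorem np_of_abs_le (hD : Squarefree D) (h : Pell D P Q r)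
    (hoff : ∀ l β, r.eval β = 0 → (γ l).Off β) {𝒜 : Submodule ℝ (Fin m → ℝ)}
    (hA : C2.LC γ P Q r 𝒜) {c : Fin m → ℝ} (hc : c ∈ 𝒜) {β : ℂ} (hβ : (P.eval β).im = 0)
    (hβ1 : |(P.eval β).re| ≤ 1) : NP r (Rc γ r c) β := by
  by_contra hnp
  have hR : Rc γ r c ≠ 0 := by
    intro h0
    refine hnp ?_
    unfold NP
    rw [h0]
    exact dvd_zero _
  obtain ⟨R1, hR1, hR1β⟩ := exists_eq_pow_rootMultiplicity_mul_and_not_dvd (Rc γ r c) hR β
  obtain ⟨r1, hr1⟩ := pow_rootMultiplicity_dvd r β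
  have hlt : rootMultiplicity β (Rc γ r c) < rootMultiplicity β r := by
    by_contra hcon
    refine hnp ?_
    unfold NP
    exact (pow_dvd_pow _ (not_lt.1 hcon)).trans (pow_rootMultiplicity_dvd _ β)
  obtain ⟨p', hp'⟩ : ∃ p', rootMultiplicity β r = rootMultiplicity β (Rc γ r c) + (p' + 1) :=
    ⟨rootMultiplicity β r - rootMultiplicity β (Rc γ r c) - 1, by omega⟩
  rw [hp', pow_add, mul_assoc] at hr1
  refine hR1β (dvd_iff_isRoot.2 (C2.eval_eq_zero_of_abs_le γ hD h hoff hA hc hr1 ?_ hR1 hβ hβ1))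
  rw [eval_mul, eval_pow, eval_sub, eval_X, eval_C, sub_self, zero_pow (Nat.succ_ne_zero _),
    zero_mul]

theorem dvd_of_np {r R : ℂ[X]} (hr : r ≠ 0) (h : ∀ β, NP r R β) : r ∣ R := by
  classical
  by_cases hR : R = 0
  · rw [hR]
    exact dvd_zero _
  refine (IsAlgClosed.splits r).dvd_of_roots_le_roots hr ?_
  rw [Multiset.le_iff_count]
  intro a
  rw [count_roots, count_roots, le_rootMultiplicity_iff hR]
  exact h a

theorem finite_outCrit {G : ℂ[X]} (hG : 0 < G.natDegree) : (OutCrit G).Finite := by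
  have hG' : derivative G ≠ 0 := by
    rw [Ne, derivative_eq_zero]
    omega
  refine (derivative G).roots.toFinset.finite_toSet.subset fun v hv => ?_
  have hv' : (derivative G).eval v = 0 := hv.1
  simp [hG', hv']

theorem natDegree_left_pos {G w : ℂ[X]} (h : 0 < P.natDegree) (hPG : P = G.comp w) :
    0 < G.natDegree := by
  rw [hPG, natDegree_comp] at h
  exact Nat.pos_of_mul_pos_right h

/-- If `G - s` has only real roots for all but finitely many `s` near `t`, then so has `G - t`. -/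
theorem real_of_near {G : ℂ[X]} (hG : 0 < G.natDegree) {T T' : Set ℝ} (hT : IsOpen T)
    (hfin : (T \ T').Finite) (h : ∀ t ∈ T', ∀ v : ℂ, G.eval v = (t : ℝ) → v.im = 0) {t : ℝ}
    (ht : t ∈ T) {v : ℂ} (hv : G.eval v = (t : ℝ)) : v.im = 0 := by
  by_contra him
  have han : AnalyticAt ℂ (fun z => G.eval z) v := by
    have h1 : Differentiable ℂ fun z => G.eval z := G.differentiable
    exact h1.analyticAt v
  have hopen : 𝓝 (G.eval v) ≤ Filter.map (fun z => G.eval z) (𝓝 v) := by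
    refine (han.eventually_constant_or_nhds_le_map_nhds).resolve_left fun hc => ?_
    have h3 : G - C (G.eval v) ≠ 0 := sub_C_ne hG _
    obtain ⟨ε, hε, hball⟩ := Metric.eventually_nhds_iff_ball.1 hc
    have h4 : (Metric.ball v ε).Infinite := by
      refine infinite_of_mem_nhds v (Metric.ball_mem_nhds v hε)
    refine h4 ((G - C (G.eval v)).roots.toFinset.finite_toSet.subset fun z hz => ?_)
    have h5 := hball z hz
    rw [Finset.mem_coe, Multiset.mem_toFinset, mem_roots h3, IsRoot.def, eval_sub, eval_C,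
      sub_eq_zero]
    exact h5
  have hnon : ∀ᶠ z in 𝓝 v, z.im ≠ 0 :=
    Complex.continuous_im.continuousAt.eventually_ne him
  have h1 : (fun z => G.eval z) '' {z | z.im ≠ 0} ∈ 𝓝 (G.eval v) := by
    refine hopen ?_
    rw [Filter.mem_map]
    filter_upwards [hnon] with z hz
    exact ⟨z, hz, rfl⟩
  rw [hv] at h1
  have h2 : ∀ᶠ s : ℝ in 𝓝 t, (s : ℂ) ∈ (fun z => G.eval z) '' {z | z.im ≠ 0} :=
    Complex.continuous_ofReal.continuousAt.eventually_mem h1
  have h3 : ∀ᶠ s : ℝ in 𝓝 t, s ∈ T := hT.mem_nhds ht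
  have h4 : ∀ᶠ s : ℝ in 𝓝[≠] t, s ∉ T \ T' := by
    have h5 : (T \ T') \ {t} ⊆ T \ T' := Set.sdiff_subset
    have h6 : ((T \ T') \ {t})ᶜ ∈ 𝓝 t :=
      (hfin.subset h5).isClosed.isOpen_compl.mem_nhds fun h => h.2 rfl
    filter_upwards [mem_nhdsWithin_of_mem_nhds h6, self_mem_nhdsWithin] with s hs hst hsT
    exact hs ⟨hsT, hst⟩
  obtain ⟨s, ⟨hs1, hs2⟩, hs3⟩ :=
    (((h2.and h3).filter_mono nhdsWithin_le_nhds).and h4).exists
  have hsT' : s ∈ T' := by
    by_contra hcon
    exact hs3 ⟨hs2, hcon⟩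
  obtain ⟨z, hz1, hz2⟩ := hs1
  exact hz1 (h s hsT' z hz2)

/-- The dimension of a space of locally constant combinations. -/
theorem exists_decomp (hD : Squarefree D) (h : Pell D P Q r)
    (hoff : ∀ l β, r.eval β = 0 → (γ l).Off β) (hT : (TT γ P).Nonempty)
    {𝒜 : Submodule ℝ (Fin m → ℝ)} (hA : C2.LC γ P Q r 𝒜)
    (hind : ∀ c : Fin m → ℝ, c ≠ 0 → ∃ j < r.natDegree, Ic γ c (X ^ j) ≠ 0) :
    ∃ G w : ℂ[X], P = G.comp w ∧ RealRooted G ∧
      (∀ t ∈ TT γ P, ∀ v : ℂ, G.eval v = (t : ℝ) → v.im = 0) ∧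
        finrank ℝ 𝒜 ≤ (OutCrit G).ncard := by
  obtain ⟨w, G, hw, hPG, ⟨T', hT'T, hT'fin, hroots⟩, hGr, hcrit, hΘ, hw1, hw2⟩ :=
    exists_coord' h.deg (TT_infinite γ hT)
  have hG := natDegree_left_pos h.deg hPG
  -- an interval
  have hopen : IsOpen (TT γ P \ (TT γ P \ T')) := (isOpen_TT γ P).sdiff hT'fin.isClosed
  have hTT : TT γ P \ (TT γ P \ T') = T' := by
    rw [sdiff_sdiff_right_self]
    exact Set.inter_eq_right.2 hT'T
  rw [hTT] at hopen
  have hT'inf : T'.Infinite := by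
    intro hfin
    refine TT_infinite γ hT ((hfin.union hT'fin).subset fun t ht => ?_)
    by_cases h1 : t ∈ T'
    · exact Or.inl h1
    · exact Or.inr ⟨ht, h1⟩
  obtain ⟨t, ht⟩ := hT'inf.nonempty
  obtain ⟨ε, hε, hball⟩ := Metric.isOpen_iff.1 hopen t ht
  have hRR : RealRooted G := by
    have ht1 : ∀ s ∈ Metric.ball t ε, |s| < 1 := fun s hs => (hT'T (hball hs)).1
    refine ⟨t - ε / 2, t + ε / 2, ?_, by linarith, ?_, ?_⟩
    · have h1 := ht1 (t - ε / 2) (by
        rw [Metric.mem_ball, Real.dist_eq]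
        rw [show t - ε / 2 - t = -(ε / 2) by ring, abs_neg, abs_of_pos (by linarith)]
        linarith)
      exact (abs_lt.1 h1).1.le
    · have h1 := ht1 (t + ε / 2) (by
        rw [Metric.mem_ball, Real.dist_eq]
        rw [show t + ε / 2 - t = ε / 2 by ring, abs_of_pos (by linarith)]
        linarith)
      exact (abs_lt.1 h1).2.le
    · intro s hs1 hs2 v hv
      refine hroots s (hball ?_) v hv
      rw [Metric.mem_ball, Real.dist_eq, abs_lt]
      constructor <;> linarith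
  refine ⟨G, w, hPG, hRR, fun t ht v hv =>
    real_of_near hG (isOpen_TT γ P) hT'fin hroots ht hv, ?_⟩
  have hfin := finite_outCrit hG
  have hF : ∀ v ∈ hfin.toFinset, G.eval v ^ 2 ≠ 1 ∧ rootMultiplicity v (derivative G) = 1 := by
    intro v hv
    rw [Set.Finite.mem_toFinset] at hv
    refine ⟨fun h1 => ?_, simple_crit hG hGr hT'inf hroots hv.1⟩
    have h2 : (G.eval v - 1) * (G.eval v + 1) = 0 := by linear_combination h1
    have h3 := hv.2
    rcases mul_eq_zero.1 h2 with h4 | h4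
    · rw [sub_eq_zero.1 h4] at h3
      simp at h3
    · rw [eq_neg_of_add_eq_zero_left h4] at h3
      simp at h3
  have h1 := finrank_NZ_le γ h hA hw hPG hΘ hw1 hw2 hfin.toFinset hF
  have h2 : NZ γ r w 𝒜 (hfin.toFinset : Set ℂ) = ⊥ := by
    rw [Submodule.eq_bot_iff]
    intro c hc
    by_contra hc0
    obtain ⟨j, hj, hjc⟩ := hind c hc0
    refine hjc (functional_zero (Ic γ c) r h.r_ne ?_ j hj)
    have h3 : r ∣ Rc γ r c := by
      refine dvd_of_np h.r_ne fun β => ?_
      by_cases hβ : P.eval β ^ 2 = 1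
      · have h4 : (P.eval β - 1) * (P.eval β + 1) = 0 := by linear_combination hβ
        refine np_of_abs_le γ hD h hoff hA hc.1 ?_ ?_
        · rcases mul_eq_zero.1 h4 with h5 | h5
          · rw [sub_eq_zero.1 h5]
            exact Complex.one_im
          · rw [eq_neg_of_add_eq_zero_left h5]
            simp
        · rcases mul_eq_zero.1 h4 with h5 | h5
          · rw [sub_eq_zero.1 h5]
            simp
          · rw [eq_neg_of_add_eq_zero_left h5]
            simp
      by_cases hcr : (derivative G).eval (w.eval β) = 0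
      · have h5 : (P.eval β).im = 0 := by
          rw [hPG, eval_comp, ← Complex.conj_eq_iff_im, ← eval_conj_of_real G (hcrit _ hcr), hGr]
        by_cases h6 : |(P.eval β).re| ≤ 1
        · exact np_of_abs_le γ hD h hoff hA hc.1 h5 h6
        · refine hc.2 β ?_
          rw [Finset.mem_coe, Set.Finite.mem_toFinset]
          refine ⟨hcr, ?_⟩
          rw [← eval_comp, ← hPG]
          exact not_le.1 h6
      · exact np_of_ne h hw hPG hΘ (C2.realTheta γ h hA hc.1) hβ hcr
    exact Polynomial.eq_zero_of_dvd_of_degree_lt h3 (RR_degree _ _ h.r_ne)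
  rw [h2, finrank_bot, zero_add] at h1
  rwa [Set.ncard_eq_toFinset_card _ hfin]

/-- A real rooted polynomial is real, and its critical points are real. -/
theorem RealRooted.real {G : ℂ[X]} (hG : 0 < G.natDegree) (h : RealRooted G) :
    G.map (starRingEnd ℂ) = G ∧ (∀ v : ℂ, (derivative G).eval v = 0 → v.im = 0) ∧
      ∀ v : ℂ, (derivative G).eval v = 0 → rootMultiplicity v (derivative G) = 1 := by
  obtain ⟨a, b, ha, hab, hb, hroots⟩ := h
  have hinf : (Set.Ioo a b).Infinite := Set.Ioo_infinite hab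
  have hroots' : ∀ t ∈ Set.Ioo a b, ∀ v : ℂ, G.eval v = (t : ℝ) → v.im = 0 :=
    fun t ht v hv => hroots t ht.1 ht.2 v hv
  have hGreal : G.map (starRingEnd ℂ) = G := by
    refine Polynomial.eq_of_infinite_eval_eq _ _ fun hfin => ?_
    refine hinf ((hfin.image fun v => (G.eval v).re).subset fun t ht => ?_)
    obtain ⟨v, hv⟩ := exists_eval_eq hG (t : ℂ)
    refine ⟨v, ?_, by simp only [hv, Complex.ofReal_re]⟩
    show (G.map (starRingEnd ℂ)).eval v = G.eval v
    rw [eval_conj_of_real G (hroots' t ht v hv), hv, Complex.conj_ofReal]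
  refine ⟨hGreal, ?_, fun v hv => simple_crit hG hGreal hinf hroots' hv⟩
  intro v hv
  obtain ⟨t, ht⟩ := hinf.nonempty
  have hd : derivative (G - C (t : ℂ)) = derivative G := by
    rw [derivative_sub, derivative_C, sub_zero]
  have hG' : derivative G ≠ 0 := by
    rw [Ne, derivative_eq_zero]
    omega
  have h1 : 0 < (G - C (t : ℂ)).degree := by
    rw [← natDegree_pos_iff_degree_pos, natDegree_sub_C]
    exact hG
  have h2 := rootSet_derivative_subset_convexHull_rootSet h1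
  have h3 : v ∈ (derivative (G - C (t : ℂ))).rootSet ℂ := by
    rw [hd, mem_rootSet, coe_aeval_eq_eval]
    exact ⟨hG', hv⟩
  have h4 : convexHull ℝ ((G - C (t : ℂ)).rootSet ℂ) ⊆ {z : ℂ | z.im = 0} := by
    refine convexHull_min ?_ convex_real
    intro z hz
    rw [mem_rootSet, coe_aeval_eq_eval] at hz
    refine hroots' t ht z ?_
    have := hz.2
    rw [eval_sub, eval_C, sub_eq_zero] at this
    exact this
  exact h4 (h2 h3)

theorem RealRooted.real_val {G : ℂ[X]} (hG : 0 < G.natDegree) (h : RealRooted G) {v : ℂ}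
    (hv : (derivative G).eval v = 0) : (G.eval v).im = 0 := by
  obtain ⟨h1, h2, -⟩ := h.real hG
  rw [← Complex.conj_eq_iff_im, ← eval_conj_of_real G (h2 v hv), h1]

open scoped Classical in
/-- The number of these critical points of `G` is at most the number of the critical points of `P`
with real critical values outside of `[-1, 1]`. -/
theorem ncard_outCrit_le (h : Pell D P Q r) {G w : ℂ[X]} (hPG : P = G.comp w)
    (hG : RealRooted G) : (OutCrit G).ncard ≤
      Multiset.card (r.roots.filter fun β => (P.eval β).im = 0 ∧ 1 < |(P.eval β).re|) := by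
  have hGd := natDegree_left_pos h.deg hPG
  have hw : 0 < w.natDegree := by
    have h1 := h.deg
    rw [hPG, natDegree_comp] at h1
    exact Nat.pos_of_mul_pos_left h1
  have hfin := finite_outCrit hGd
  choose f hf using fun v : ℂ => exists_eval_eq hw v
  have hsub : hfin.toFinset.image f ⊆
      (r.roots.filter fun β => (P.eval β).im = 0 ∧ 1 < |(P.eval β).re|).toFinset := by
    intro β hβ
    obtain ⟨v, hv, rfl⟩ := Finset.mem_image.1 hβ
    rw [Set.Finite.mem_toFinset] at hv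
    have h1 : P.eval (f v) = G.eval v := by rw [hPG, eval_comp, hf]
    rw [Multiset.mem_toFinset, Multiset.mem_filter, mem_roots h.r_ne, h1]
    refine ⟨?_, hG.real_val hGd hv.1, hv.2⟩
    have h2 : (derivative P).eval (f v) = 0 := by
      rw [hPG, derivative_comp, eval_mul, eval_comp, hf, hv.1, mul_zero]
    rw [h.der, eval_mul] at h2
    refine (mul_eq_zero.1 h2).resolve_right (h.ne_of_sq_ne ?_).2
    rw [h1]
    intro h3
    have h4 : (G.eval v - 1) * (G.eval v + 1) = 0 := by linear_combination h3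
    have h5 := hv.2
    rcases mul_eq_zero.1 h4 with h6 | h6
    · rw [sub_eq_zero.1 h6] at h5
      simp at h5
    · rw [eq_neg_of_add_eq_zero_left h6] at h5
      simp at h5
  rw [Set.ncard_eq_toFinset_card _ hfin, ← Finset.card_image_of_injective (f := f) _ (fun v v' hvv => by
    rw [← hf v, ← hf v', hvv])]
  exact (Finset.card_le_card hsub).trans (Multiset.toFinset_card_le _)

end Pool.Agent.H510.K2S
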