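import Pool.Agent.H510.K2S.Core3
import Pool.Graph.R_pool_sql_team_seeded_1acbe0a2.Y94.R.Jcore
import Pool.Graph.R_pool_sql_team_seeded_1acbe0a2.Y94.R.Jn
set_option autoImplicit false

/-!
The regulator integrals at the special points under several embeddings jointly.
-/

namespace Pool.Agent.H510.K2S

open Polynomial Set Filter Module

open Pool.Agent.Y94.R

open scoped Topology

variable {K : Type*} [Field K] {A : Type*} [Field A] [Algebra K A] [CharZero A] [IsAlgClosed A]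
  {D P Q r : K[X]} {e : ℕ} {σ : Fin e → K →+* ℂ} {τ : Fin e → A →+* ℂ}
  {m : Fin e → ℕ} (γ : ∀ i, Fin (m i) → Lp (D.map (σ i)))

/-- Linearly independent vectors of regulator integrals at several places. -/
theorem core_joint' (hτ : ∀ i, (τ i).comp (algebraMap K A) = σ i)
    (hind : ∀ n : Fin e → ℤ, n ≠ 0 → ∃ (ζ : A) (N : ℕ), N ≠ 0 ∧ ζ ^ N = 1 ∧
      ∏ i, τ i ζ ^ n i ≠ 1) (hp : ∀ i, Pell (D.map (σ i)) (P.map (σ i)) (Q.map (σ i))
        (r.map (σ i))) (hP : 0 < P.natDegree) (hD : ∀ i, Squarefree (D.map (σ i)))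
    (hoffr : ∀ i l β, (r.map (σ i)).eval β = 0 → (γ i l).Off β)
    {t : Fin e → ℝ} (ht : ∀ i, |t i| < 1)
    (hoff : ∀ i b, (P.map (σ i)).eval b = t i → ∀ l, (γ i l).Off b)
    (hper : ∀ i, ∀ c : Fin (m i) → ℝ, c ≠ 0 →
      ∃ j < (r.map (σ i)).natDegree, Ic (γ i) c (X ^ j) ≠ 0) (k : Fin e → ℕ)
    (hk : ∀ i (G w : ℂ[X]), P.map (σ i) = G.comp w → (∀ t : ℝ, |t| < 1 →
      (∀ l s, (P.map (σ i)).eval ((γ i l).x s) ≠ t) → ∀ v : ℂ, G.eval v = t → v.im = 0) →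
      (OutCrit G).ncard ≤ k i)
    {n : ℕ} (hn : n + ∑ i, k i = ∑ i, m i) :
    ∃ β : Fin (n + 1) → A, (∀ k, SpA P (β k)) ∧ (∀ k i l, (γ i l).Off (τ i (β k))) ∧
      LinearIndependent ℝ fun (k : Fin n) (p : Σ i, Fin (m i)) =>
        (γ p.1 p.2).rho (P.map (σ p.1)) (Q.map (σ p.1)) (τ p.1 (β k.succ)) -
        (γ p.1 p.2).rho (P.map (σ p.1)) (Q.map (σ p.1)) (τ p.1 (β 0)) := by
  obtain ⟨β₀, hβ₀⟩ := SJ_nonempty γ hτ hind hP ht hoff
  have hle : finrank ℝ (AnnI (SJ γ P τ) (vJ γ P Q τ) β₀) ≤ ∑ i, k i := by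
    refine (finrank_le_sum m _).trans (Finset.sum_le_sum fun i _ => ?_)
    obtain ⟨G, w, h1, -, h2, h3⟩ := exists_decomp (γ i) (hD i) (hp i) (hoffr i)
      ⟨t i, ht i, fun b hb => hoff i b hb⟩ (LC_map γ hτ hind hp hP ht hoff β₀ i) (hper i)
    refine h3.trans (hk i G w h1 fun t ht1 ht2 => h2 t ⟨ht1, fun b hb l s hs => ht2 l s ?_⟩)
    rw [sub_eq_zero.1 hs, hb]
  obtain ⟨β, hβ, hli⟩ := exists_indepI (SJ γ P τ) (vJ γ P Q τ) β₀
    (by rw [Fintype.card_sigma]; simpa using hn) hle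
  refine ⟨Fin.cons β₀ β, ?_, ?_, ?_⟩
  · intro k
    refine Fin.cases ?_ (fun j => ?_) k
    · exact hβ₀.1
    · exact (hβ j).1
  · intro k
    refine Fin.cases ?_ (fun j => ?_) k
    · exact hβ₀.2
    · exact (hβ j).2
  · have h3 : (fun (k : Fin n) (p : Σ i, Fin (m i)) =>
        (γ p.1 p.2).rho (P.map (σ p.1)) (Q.map (σ p.1))
          (τ p.1 ((Fin.cons β₀ β : Fin (n + 1) → A) k.succ)) -
        (γ p.1 p.2).rho (P.map (σ p.1)) (Q.map (σ p.1))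
          (τ p.1 ((Fin.cons β₀ β : Fin (n + 1) → A) 0))) =
        fun j => vJ γ P Q τ (β j) - vJ γ P Q τ β₀ := by
      funext j p
      rw [Fin.cons_succ, Fin.cons_zero]
      rfl
    rw [h3]
    exact hli

end Pool.Agent.H510.K2S
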