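import Pool.Agent.H510.K2S.Coord
import Pool.Graph.R_seed8.Y94.R.Loc
set_option autoImplicit false

/-!
Multiplicities of rational functions of a polynomial `w`, and of the function `θ` attached to a
combination of regulator integrals.
-/

namespace Pool.Agent.H510.K2S

open Polynomial IntermediateField Filter

open Pool.Agent.Y94.R

/-- The critical points of a polynomial that is real rooted over an infinite set are simple. -/
theorem simple_crit {G : ℂ[X]} (hG : 0 < G.natDegree) (hGr : G.map (starRingEnd ℂ) = G)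
    {T' : Set ℝ} (hT' : T'.Infinite)
    (hroots : ∀ t ∈ T', ∀ v : ℂ, G.eval v = (t : ℝ) → v.im = 0) {v : ℂ}
    (hv : (derivative G).eval v = 0) : rootMultiplicity v (derivative G) = 1 := by
  classical
  obtain ⟨H, hH⟩ : ∃ H : ℝ[X], H.map Complex.ofRealHom = G := by
    rw [← mem_lifts, lifts_iff_coeff_lifts]
    intro n
    have h1 := congrArg (fun p : ℂ[X] => p.coeff n) hGr
    simp only [coeff_map] at h1
    exact ⟨(G.coeff n).re, Complex.ext rfl (Complex.conj_eq_iff_im.1 h1).symm⟩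
  have hG' : derivative G ≠ 0 := by
    rw [Ne, derivative_eq_zero]
    omega
  -- a value that is not critical
  obtain ⟨t, htT, ht⟩ : ∃ t ∈ T', ∀ v : ℂ, (derivative G).eval v = 0 → G.eval v ≠ (t : ℝ) := by
    have hfin : ((fun v : ℂ => (G.eval v).re) '' {v | (derivative G).eval v = 0}).Finite := by
      refine Set.Finite.image _ ?_
      refine (derivative G).roots.toFinset.finite_toSet.subset fun v hv => ?_
      have hv' : (derivative G).eval v = 0 := hv
      simp [hG', hv']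
    obtain ⟨t, ht1, ht2⟩ := (hT'.sdiff hfin).nonempty
    refine ⟨t, ht1, fun v hv h => ht2 ⟨v, hv, ?_⟩⟩
    simp only [h, Complex.ofReal_re]
  set p : ℝ[X] := H - C t with hp
  have hpG : p.map Complex.ofRealHom = G - C (t : ℂ) := by
    rw [hp, Polynomial.map_sub, hH, map_C]
    rfl
  have hpG0 : G - C (t : ℂ) ≠ 0 := by
    intro h
    rw [sub_eq_zero.1 h, natDegree_C] at hG
    exact lt_irrefl _ hG
  have hp0 : p ≠ 0 := by
    intro h
    rw [h, Polynomial.map_zero] at hpG
    exact hpG0 hpG.symm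
  have hnd : (G - C (t : ℂ)).roots.Nodup := by
    rw [Multiset.nodup_iff_count_le_one]
    intro a
    rw [count_roots]
    by_contra hcon
    have hroot : (G - C (t : ℂ)).IsRoot a := by
      rw [← rootMultiplicity_pos hpG0]
      omega
    have h1 := derivative_rootMultiplicity_of_root hroot
    rw [derivative_sub, derivative_C, sub_zero] at h1
    have h2 : 0 < rootMultiplicity a (derivative G) := by omega
    have h3 := (rootMultiplicity_pos hG').1 h2
    refine ht a h3 ?_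
    have h4 : (G - C (t : ℂ)).eval a = 0 := hroot
    rw [eval_sub, eval_C, sub_eq_zero] at h4
    exact h4
  have hcard : (G - C (t : ℂ)).roots.card = G.natDegree := by
    rw [← (IsAlgClosed.splits (G - C (t : ℂ))).natDegree_eq_card_roots, natDegree_sub_C]
  have h1 : G.natDegree ≤ p.roots.toFinset.card := by
    rw [← hcard, ← Multiset.toFinset_card_of_nodup hnd]
    refine Finset.card_le_card_of_injOn (fun z : ℂ => z.re) ?_ ?_
    · intro z hz
      rw [Finset.mem_coe, Multiset.mem_toFinset, mem_roots hpG0, IsRoot.def, eval_sub, eval_C,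
        sub_eq_zero] at hz
      have hzim := hroots t htT z hz
      rw [Finset.mem_coe, Multiset.mem_toFinset, mem_roots hp0, IsRoot.def]
      have hz' : z = (z.re : ℂ) := Complex.ext rfl (by simp [hzim])
      have h2 : ((p.eval z.re : ℝ) : ℂ) = 0 := by
        have h3 := eval_map_apply (f := Complex.ofRealHom) (p := p) z.re
        rw [hpG] at h3
        have h4 : Complex.ofRealHom z.re = z := hz'.symm
        rw [h4, eval_sub, hz, eval_C, sub_self] at h3
        exact h3.symm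
      exact_mod_cast h2
    · intro z hz z' hz' hzz
      rw [Finset.mem_coe, Multiset.mem_toFinset, mem_roots hpG0, IsRoot.def, eval_sub, eval_C,
        sub_eq_zero] at hz hz'
      exact Complex.ext hzz (by rw [hroots t htT z hz, hroots t htT z' hz'])
  have h2 := card_roots_toFinset_le_derivative p
  have hpd : (derivative p).map Complex.ofRealHom = derivative G := by
    rw [← derivative_map, hpG, derivative_sub, derivative_C, sub_zero]
  have h3 : (derivative p).roots.map Complex.ofRealHom ≤ (derivative G).roots := by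
    rw [← hpd]
    exact map_roots_le (by rw [hpd]; exact hG')
  have h4 : (derivative G).roots.card ≤ G.natDegree - 1 :=
    (card_roots' _).trans (natDegree_derivative_le G)
  have h5 := Multiset.card_le_card h3
  rw [Multiset.card_map] at h5
  have h6 := Multiset.toFinset_card_le (derivative p).roots
  have h7 : (derivative p).roots.map Complex.ofRealHom = (derivative G).roots := by
    refine Multiset.eq_of_le_of_card_le h3 ?_
    rw [Multiset.card_map]
    omega
  have h8 : (derivative p).roots.Nodup := by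
    rw [← Multiset.toFinset_card_eq_card_iff_nodup]
    omega
  have h9 : (derivative G).roots.Nodup := by
    rw [← h7]
    exact h8.map Complex.ofReal_injective
  rw [Multiset.nodup_iff_count_le_one] at h9
  have h10 := h9 v
  rw [count_roots] at h10
  have h11 := (rootMultiplicity_pos hG').2 hv
  omega

theorem sub_C_ne {w : ℂ[X]} (hw : 0 < w.natDegree) (v : ℂ) : w - C v ≠ 0 := by
  intro h
  rw [sub_eq_zero.1 h, natDegree_C] at hw
  exact lt_irrefl _ hw

theorem comp_ne {w V : ℂ[X]} (hw : 0 < w.natDegree) (hV : V ≠ 0) : V.comp w ≠ 0 := by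
  intro h
  rw [comp_eq_zero_iff] at h
  rcases h with h | h
  · exact hV h
  · rw [h.2, natDegree_C] at hw
    exact lt_irrefl _ hw

/-- The multiplicities of a composition. -/
theorem mult_comp {w V : ℂ[X]} (hw : 0 < w.natDegree) (hV : V ≠ 0) (β : ℂ) :
    rootMultiplicity β (V.comp w) =
      rootMultiplicity (w.eval β) V * rootMultiplicity β (w - C (w.eval β)) := by
  obtain ⟨V₁, hV₁, hV₁ω⟩ := exists_eq_pow_rootMultiplicity_mul_and_not_dvd V hV (w.eval β)
  have h3 : V.comp w = (w - C (w.eval β)) ^ rootMultiplicity (w.eval β) V * V₁.comp w := by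
    have h4 := congrArg (fun q : ℂ[X] => q.comp w) hV₁
    simp only [mul_comp, pow_comp, sub_comp, X_comp, C_comp] at h4
    exact h4
  have h5 : (V₁.comp w).eval β ≠ 0 := by
    rw [eval_comp]
    intro h
    exact hV₁ω (dvd_iff_isRoot.2 h)
  rw [h3, rootMultiplicity_mul (by rw [← h3]; exact comp_ne hw hV),
    rootMultiplicity_pow' (sub_C_ne hw _), rootMultiplicity_eq_zero (p := V₁.comp w) h5, add_zero]

theorem mult_self_pos {w : ℂ[X]} (hw : 0 < w.natDegree) (β : ℂ) :
    0 < rootMultiplicity β (w - C (w.eval β)) :=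
  (rootMultiplicity_pos (sub_C_ne hw _)).2 (by simp)

/-- The orders of a rational function of `w`. -/
theorem orders {w A B U V : ℂ[X]} (hw : 0 < w.natDegree) (h : A * V.comp w = B * U.comp w)
    (hA : A ≠ 0) (hV : V ≠ 0) (β : ℂ) :
    rootMultiplicity β A +
        rootMultiplicity (w.eval β) V * rootMultiplicity β (w - C (w.eval β)) =
      rootMultiplicity β B +
        rootMultiplicity (w.eval β) U * rootMultiplicity β (w - C (w.eval β)) := by
  have h1 : A * V.comp w ≠ 0 := mul_ne_zero hA (comp_ne hw hV)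
  have hU : U ≠ 0 := by
    rintro rfl
    rw [zero_comp, mul_zero] at h
    exact h1 h
  rw [← mult_comp hw hV, ← mult_comp hw hU, ← rootMultiplicity_mul h1, h, rootMultiplicity_mul]
  rw [← h]
  exact h1

theorem coprime_mult {U V : ℂ[X]} (h : IsCoprime U V) (hU : U ≠ 0) (hV : V ≠ 0) (x : ℂ) :
    rootMultiplicity x U = 0 ∨ rootMultiplicity x V = 0 := by
  by_contra hcon
  push Not at hcon
  exact isCoprime_eval h ((rootMultiplicity_pos hU).1 (Nat.pos_of_ne_zero hcon.1))
    ((rootMultiplicity_pos hV).1 (Nat.pos_of_ne_zero hcon.2))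

/-- `R / r` has no pole at `β`. -/
def NP (r R : ℂ[X]) (β : ℂ) : Prop := (X - C β) ^ rootMultiplicity β r ∣ R

/-- The multiplicity of the numerator of `θ` at a pole of `R / r`. -/
theorem pole_data {D r n R : ℂ[X]} {β : ℂ} (hr : r ≠ 0) (hD : D.eval β ≠ 0) (h : ¬ NP r R β) :
    ∃ a p : ℕ, 0 < p ∧ rootMultiplicity β r = a + p ∧
      (∃ R1 : ℂ[X], R = (X - C β) ^ a * R1 ∧ R1.eval β ≠ 0) ∧ WW D r n R ≠ 0 ∧
        rootMultiplicity β (WW D r n R) + 1 = 2 * a + p := by
  have hR : R ≠ 0 := by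
    rintro rfl
    exact h (dvd_zero _)
  obtain ⟨R1, hR1, hR1β⟩ := exists_eq_pow_rootMultiplicity_mul_and_not_dvd R hR β
  obtain ⟨r1, hr1, hr1β⟩ := exists_eq_pow_rootMultiplicity_mul_and_not_dvd r hr β
  have hR1β' : R1.eval β ≠ 0 := fun h2 => hR1β (dvd_iff_isRoot.2 h2)
  have hr1β' : r1.eval β ≠ 0 := fun h2 => hr1β (dvd_iff_isRoot.2 h2)
  have hlt : rootMultiplicity β R < rootMultiplicity β r := by
    by_contra hcon
    refine h ?_
    unfold NP
    exact (pow_dvd_pow _ (not_lt.1 hcon)).trans (pow_rootMultiplicity_dvd R β)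
  obtain ⟨p', hp'⟩ : ∃ p', rootMultiplicity β r = rootMultiplicity β R + (p' + 1) :=
    ⟨rootMultiplicity β r - rootMultiplicity β R - 1, by omega⟩
  obtain ⟨a, ha⟩ : ∃ a, a = rootMultiplicity β R := ⟨_, rfl⟩
  rw [← ha] at hp' hR1
  rw [hp'] at hr1
  obtain ⟨W1, hW1, hW1β⟩ := exists_WW D r1 n R1 β p'
  have hr2 : r = (X - C β) ^ a * ((X - C β) ^ (p' + 1) * r1) := by
    rw [hr1, pow_add]
    ring
  have hWW : WW D r n R = (X - C β) ^ (2 * a + p') * W1 := by
    rw [hr2, hR1, WW_mul, hW1]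
    ring
  have hW1ne : W1.eval β ≠ 0 := by
    rw [hW1β]
    refine neg_ne_zero.2 (mul_ne_zero (mul_ne_zero (mul_ne_zero hD hR1β') ?_) hr1β')
    exact_mod_cast Nat.succ_ne_zero p'
  obtain ⟨h1, h2⟩ := rootMultiplicity_eq_of hWW hW1ne
  exact ⟨a, p' + 1, Nat.succ_pos _, hp', ⟨R1, hR1, hR1β'⟩, h1, by rw [h2]; ring⟩

/-- The multiplicity of the numerator of `θ` where `R / r` has no pole. -/
theorem np_data {D r n R : ℂ[X]} {β : ℂ} (h : NP r R β)
    (hW : WW D r n R ≠ 0) : 2 * rootMultiplicity β r ≤ rootMultiplicity β (WW D r n R) := by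
  obtain ⟨R1, hR1⟩ := h
  obtain ⟨r1, hr1⟩ := pow_rootMultiplicity_dvd r β
  obtain ⟨m, hm⟩ : ∃ m, m = rootMultiplicity β r := ⟨_, rfl⟩
  rw [← hm] at hR1 hr1 ⊢
  have h1 : WW D r n R = ((X - C β) ^ m) ^ 2 * WW D r1 n R1 := by
    rw [hR1, hr1, WW_mul]
  rw [le_rootMultiplicity_iff hW, h1, ← pow_mul, mul_comm m 2]
  exact dvd_mul_right _ _

/-- The representation of `θ` as a rational function of `w`. -/
theorem exists_UV {P D r n R w : ℂ[X]} {T : Set ℝ} (hr : r ≠ 0)
    (hΘ : ∀ A B : ℂ[X], B ≠ 0 → RealOn P T A B → ι A / ι B ∈ ℂ⟮ι w⟯)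
    (h : RealTheta P T D r n R) : ∃ U V : ℂ[X], IsCoprime U V ∧ V ≠ 0 ∧
      WW D r n R * V.comp w = r ^ 3 * U.comp w := by
  have hr3 : r ^ 3 ≠ 0 := pow_ne_zero 3 hr
  have hre : RealOn P T (WW D r n R) (r ^ 3) := by
    filter_upwards [h] with b ⟨_, θ, hθ⟩
    exact ⟨θ, by rw [hθ, eval_pow]⟩
  obtain ⟨U, V, hUV, hV, hid⟩ := mem_adjoin_coprime (hΘ _ _ hr3 hre)
  refine ⟨U, V, hUV, hV, ι_inj ?_⟩
  rw [map_mul, map_mul, ← aeval_ι, ← aeval_ι, ← hid]
  have := ι_ne hr3
  field_simp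

section Local

variable {D P Q r : ℂ[X]} {T : Set ℝ} {w G : ℂ[X]}

theorem mult_P (h : Pell D P Q r) (hw : 0 < w.natDegree) (hPG : P = G.comp w) {β : ℂ}
    (hβ : P.eval β ^ 2 ≠ 1) :
    (rootMultiplicity (w.eval β) (derivative G) + 1) * rootMultiplicity β (w - C (w.eval β)) =
      rootMultiplicity β r + 1 := by
  have hQβ := (h.ne_of_sq_ne hβ).2
  have h1 := h.mult β
  rw [rootMultiplicity_eq_zero (p := Q) hQβ, add_zero] at h1
  have hG : G - C (G.eval (w.eval β)) ≠ 0 := by
    intro h2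
    have h3 := h.P_sub_ne (P.eval β)
    refine h3 ?_
    have h4 := congrArg (fun q : ℂ[X] => q.comp w) h2
    simp only [sub_comp, C_comp, zero_comp] at h4
    conv_lhs => rw [hPG, eval_comp]
    exact h4
  have h2 : P - C (P.eval β) = (G - C (G.eval (w.eval β))).comp w := by
    rw [sub_comp, C_comp, ← hPG]
    conv_rhs => rw [← eval_comp, ← hPG]
  rw [← h1, h2, mult_comp hw hG]
  have hroot : (G - C (G.eval (w.eval β))).IsRoot (w.eval β) := by simp
  have h3 := derivative_rootMultiplicity_of_root hroot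
  rw [derivative_sub, derivative_C, sub_zero] at h3
  have h4 := (rootMultiplicity_pos hG).2 hroot
  rw [h3]
  congr 1
  omega

/-- No poles where `G' (w) ≠ 0`. -/
theorem np_of_ne (h : Pell D P Q r) (hw : 0 < w.natDegree) (hPG : P = G.comp w)
    (hΘ : ∀ A B : ℂ[X], B ≠ 0 → RealOn P T A B → ι A / ι B ∈ ℂ⟮ι w⟯) {n R : ℂ[X]}
    (hθ : RealTheta P T D r n R) {β : ℂ} (hβ : P.eval β ^ 2 ≠ 1)
    (hG : (derivative G).eval (w.eval β) ≠ 0) : NP r R β := by
  by_contra hnp
  obtain ⟨a, p, hp, hm, -, hWne, hW⟩ := pole_data (n := n) h.r_ne (h.ne_of_sq_ne hβ).1 hnp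
  obtain ⟨U, V, hco, hV, hUV⟩ := exists_UV h.r_ne hΘ hθ
  have hr3 : r ^ 3 ≠ 0 := pow_ne_zero 3 h.r_ne
  have hU : U ≠ 0 := by
    rintro rfl
    rw [zero_comp, mul_zero] at hUV
    exact mul_ne_zero hWne (comp_ne hw hV) hUV
  have h1 := orders hw hUV hWne hV β
  rw [rootMultiplicity_pow' h.r_ne] at h1
  have h2 := mult_P h hw hPG hβ
  rw [rootMultiplicity_eq_zero (p := derivative G) hG, zero_add, one_mul] at h2
  have h3 := coprime_mult hco hU hV (w.eval β)
  generalize rootMultiplicity (w.eval β) U = u at *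
  generalize rootMultiplicity (w.eval β) V = v at *
  rw [hm] at h1 h2
  rw [h2] at h1
  rcases h3 with rfl | rfl
  · have h4 : v * (a + p + 1) = (a + p + 1) + p := by omega
    rcases Nat.lt_or_ge v 2 with h5 | h5
    · have h6 : v * (a + p + 1) ≤ 1 * (a + p + 1) := Nat.mul_le_mul_right _ (by omega)
      omega
    · have h6 : 2 * (a + p + 1) ≤ v * (a + p + 1) := Nat.mul_le_mul_right _ h5
      omega
  · omega

/-- The order of the pole at a point over a simple critical point of `G`. -/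
theorem pole_order (h : Pell D P Q r) (hw : 0 < w.natDegree) (hPG : P = G.comp w)
    {U V n R : ℂ[X]} (hco : IsCoprime U V) (hV : V ≠ 0)
    (hUV : WW D r n R * V.comp w = r ^ 3 * U.comp w) {β : ℂ} (hβ : P.eval β ^ 2 ≠ 1)
    (hG : rootMultiplicity (w.eval β) (derivative G) = 1) (hnp : ¬ NP r R β) :
    rootMultiplicity (w.eval β) V = 3 ∧ WW D r n R ≠ 0 ∧
    ∃ R1 : ℂ[X], R = (X - C β) ^ (rootMultiplicity β r -
      rootMultiplicity β (w - C (w.eval β))) * R1 ∧ R1.eval β ≠ 0 := by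
  obtain ⟨a, p, hp, hm, ⟨R1, hR1, hR1β⟩, hWne, hW⟩ :=
    pole_data (n := n) h.r_ne (h.ne_of_sq_ne hβ).1 hnp
  have hr3 : r ^ 3 ≠ 0 := pow_ne_zero 3 h.r_ne
  have hU : U ≠ 0 := by
    rintro rfl
    rw [zero_comp, mul_zero] at hUV
    exact mul_ne_zero hWne (comp_ne hw hV) hUV
  have h1 := orders hw hUV hWne hV β
  rw [rootMultiplicity_pow' h.r_ne] at h1
  have h2 := mult_P h hw hPG hβ
  rw [hG] at h2
  have h3 := coprime_mult hco hU hV (w.eval β)
  rw [hm] at h1 h2 ⊢
  generalize rootMultiplicity (w.eval β) U = u at *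
  generalize rootMultiplicity (w.eval β) V = v at *
  generalize rootMultiplicity β (w - C (w.eval β)) = e at *
  rcases h3 with rfl | rfl
  · have h4 : v * e = 2 * e + p := by omega
    have h5 : v = 3 := by
      rcases Nat.lt_or_ge v 3 with h5 | h5
      · have h6 : v * e ≤ 2 * e := Nat.mul_le_mul_right _ (by omega)
        omega
      · rcases Nat.lt_or_ge v 4 with h7 | h7
        · omega
        · have h6 : 4 * e ≤ v * e := Nat.mul_le_mul_right _ h7
          omega
    subst h5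
    refine ⟨rfl, hWne, R1, ?_, hR1β⟩
    have h6 : a + p - e = a := by omega
    rw [h6]
    exact hR1
  · omega

/-- All points over a simple critical point of `G` are poles if one of them is. -/
theorem pole_all (h : Pell D P Q r) (hw : 0 < w.natDegree) (hPG : P = G.comp w)
    (hΘ : ∀ A B : ℂ[X], B ≠ 0 → RealOn P T A B → ι A / ι B ∈ ℂ⟮ι w⟯) {n R : ℂ[X]}
    (hθ : RealTheta P T D r n R) {β β' : ℂ} (hβ : P.eval β ^ 2 ≠ 1)
    (hG : rootMultiplicity (w.eval β) (derivative G) = 1) (hββ' : w.eval β' = w.eval β)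
    (hnp : NP r R β) : NP r R β' := by
  by_contra hnp'
  have hP : P.eval β' = P.eval β := by
    rw [hPG, eval_comp, eval_comp, hββ']
  have hβ' : P.eval β' ^ 2 ≠ 1 := by rwa [hP]
  obtain ⟨U, V, hco, hV, hUV⟩ := exists_UV h.r_ne hΘ hθ
  obtain ⟨h1, hWne, -⟩ := pole_order h hw hPG hco hV hUV hβ' (by rw [hββ']; exact hG) hnp'
  rw [hββ'] at h1
  have hr3 : r ^ 3 ≠ 0 := pow_ne_zero 3 h.r_ne
  have hU : U ≠ 0 := by
    rintro rfl
    rw [zero_comp, mul_zero] at hUV
    exact mul_ne_zero hWne (comp_ne hw hV) hUV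
  have h2 := orders hw hUV hWne hV β
  rw [rootMultiplicity_pow' h.r_ne, h1] at h2
  have h3 := np_data (D := D) (n := n) hnp hWne
  have h4 := mult_P h hw hPG hβ
  rw [hG] at h4
  have h5 := coprime_mult hco hU hV (w.eval β)
  rw [h1] at h5
  have h6 : rootMultiplicity (w.eval β) U = 0 := by
    rcases h5 with h5 | h5
    · exact h5
    · omega
  rw [h6] at h2
  omega

/-- The leading coefficients of two combinations are proportional over the real numbers. -/
theorem exists_reduction (h : Pell D P Q r) (hw : 0 < w.natDegree) (hPG : P = G.comp w)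
    (hΘ : ∀ A B : ℂ[X], B ≠ 0 → RealOn P T A B → ι A / ι B ∈ ℂ⟮ι w⟯)
    (hw1 : ∀ A B : ℂ[X], IsCoprime A B → B ≠ 0 → RealOn P T A B → ∀ β : ℂ, (w.eval β).im ≠ 0 →
        rootMultiplicity β (P - C (P.eval β)) ∣ rootMultiplicity β B)
    (hw2 : ∀ A B : ℂ[X], IsCoprime A B → B ≠ 0 → RealOn P T A B → ∀ β : ℂ, (w.eval β).im = 0 →
        B.eval β ≠ 0 → ∃ ρ : ℝ, A.eval β = ρ * B.eval β)
    {n₀ R₀ n R : ℂ[X]} (h0 : RealTheta P T D r n₀ R₀) (h1 : RealTheta P T D r n R) {β : ℂ}
    (hβ : P.eval β ^ 2 ≠ 1) (hG : rootMultiplicity (w.eval β) (derivative G) = 1)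
    (hnp : ¬ NP r R₀ β) :
    ∃ lam : ℝ, ∀ n' : ℂ[X], RealTheta P T D r n' (R - C (lam : ℂ) * R₀) →
      NP r (R - C (lam : ℂ) * R₀) β := by
  obtain ⟨U₀, V₀, hco₀, hV₀, hUV₀⟩ := exists_UV h.r_ne hΘ h0
  obtain ⟨-, -, S₀, hS₀, hS₀β⟩ := pole_order h hw hPG hco₀ hV₀ hUV₀ hβ hG hnp
  by_cases hnpR : NP r R β
  · refine ⟨0, fun n' _ => ?_⟩
    rw [Complex.ofReal_zero, C_0, zero_mul, sub_zero]
    exact hnpR
  obtain ⟨U₁, V₁, hco₁, hV₁, hUV₁⟩ := exists_UV h.r_ne hΘ h1
  obtain ⟨-, -, S, hS, hSβ⟩ := pole_order h hw hPG hco₁ hV₁ hUV₁ hβ hG hnpR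
  have h4 := mult_P h hw hPG hβ
  rw [hG] at h4
  have he := mult_self_pos hw β
  obtain ⟨e, hee⟩ : ∃ e, e = rootMultiplicity β (w - C (w.eval β)) := ⟨_, rfl⟩
  rw [← hee] at h4 he hS₀ hS
  obtain ⟨r1, hr1⟩ := pow_rootMultiplicity_dvd r β
  obtain ⟨a, ha⟩ : ∃ a, a = rootMultiplicity β r - e := ⟨_, rfl⟩
  have hm : rootMultiplicity β r = a + e := by omega
  rw [hm, pow_add, mul_assoc] at hr1
  rw [← ha] at hS₀ hS
  have hst : r = (X - C β) ^ a * ((X - C β) ^ e * r1) := hr1
  have htβ : ((X - C β) ^ e * r1).eval β = 0 := by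
    rw [eval_mul, eval_pow, eval_sub, eval_X, eval_C, sub_self, zero_pow (by omega), zero_mul]
  rw [hS₀] at h0
  rw [hS] at h1
  obtain ⟨-, lam, hlam⟩ := local_real h hw1 hw2 hβ hst htβ h0 h1 hS₀β
  refine ⟨lam, fun n' h2 => ?_⟩
  by_contra hnp2
  obtain ⟨U₂, V₂, hco₂, hV₂, hUV₂⟩ := exists_UV h.r_ne hΘ h2
  obtain ⟨-, -, S₂, hS₂, hS₂β⟩ := pole_order h hw hPG hco₂ hV₂ hUV₂ hβ hG hnp2
  rw [← hee, ← ha] at hS₂
  have h5 : S₂ = S - C (lam : ℂ) * S₀ := by
    refine mul_left_cancel₀ (pow_ne_zero a (X_sub_C_ne_zero β)) ?_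
    rw [← hS₂, hS, hS₀]
    ring
  refine hS₂β ?_
  rw [h5, eval_sub, eval_mul, eval_C, hlam, sub_self]

end Local

end Pool.Agent.H510.K2S
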